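import Pool.Agent.Q253.Thin.GoldSample

/-!
# The Chen count and the Goldbach count of a dyadic interval
-/

set_option autoImplicit false

namespace Pool.Agent.Q58.RM

open Finset Filter
open Pool.Agent.Y840.CT
open Pool.Agent.Q253.Thin

theorem base : ∃ c C : ℝ, 0 < c ∧ 0 < C ∧ ∃ x₀ : ℕ, ∀ x : ℕ, x₀ ≤ x → ∀ N : ℕ, Even N → 4 * x ≤ N → N ≤ 8 * x →
    c * (N / N.totient * (N / Real.log N ^ 2)) ≤ chen (((8 * x : ℕ) : ℝ) ^ (1 / 9 : ℝ)) (PI x (2 * x)) N ∧
    (chen (((8 * x : ℕ) : ℝ) ^ (1 / 9 : ℝ)) (PI x (2 * x)) N : ℝ) ≤ C * (N / N.totient * (N / Real.log N ^ 2)) ∧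
    (gold (PI x (2 * x)) N : ℝ) ≤ C * (N / N.totient * (N / Real.log N ^ 2)) := by
  classical
  obtain ⟨t0, ht0, c0, hc0, hgen, -⟩ := genF 1
  set t := max t0 9 with htdef
  have ht1 : 1 ≤ t := ht0.trans (le_max_left _ _)
  have ht9 : 9 ≤ t := le_max_right _ _
  obtain ⟨C0, hC0, hup⟩ := upper1 1 t ht1
  obtain ⟨c1, hc1, R₀, hrat⟩ := VF_ratio 1
  obtain ⟨c2, hc2, hVlow⟩ := VG_low
  obtain ⟨C2, hC2, hVup⟩ := VG_up
  obtain ⟨X₁, hX₁⟩ := hgen (1 / 8) (by norm_num)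
  obtain ⟨X₂, hX₂⟩ := hup (1 / 8) (by norm_num)
  refine ⟨c0 * c1 * c2 / 8, C0 * C2, by positivity, by positivity, max (max X₁ X₂) (max R₀ 8), ?_⟩
  intro x hx N hNe hN4 hN8
  have hx1 : X₁ ≤ x := le_trans (le_max_left _ _) ((le_max_left _ _).trans hx)
  have hx2 : X₂ ≤ x := le_trans (le_max_right _ _) ((le_max_left _ _).trans hx)
  have hxR : R₀ ≤ x := le_trans (le_max_left _ _) ((le_max_right _ _).trans hx)
  have hx8 : 8 ≤ x := le_trans (le_max_right _ _) ((le_max_right _ _).trans hx)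
  have hxr : (8 : ℝ) ≤ x := by exact_mod_cast hx8
  have hx0 : (0 : ℝ) < x := by linarith
  have hAB : (1 / 8 : ℝ) * ((8 * x : ℕ) : ℝ) ≤ ((2 * x : ℕ) : ℝ) - x := by
    push_cast
    linarith
  have hABe : ((2 * x : ℕ) : ℝ) - x = x := by
    push_cast
    ring
  have hN2 : 2 ≤ N := by omega
  have hNr : (0 : ℝ) < N := by exact_mod_cast (by omega : 0 < N)
  have hφ : (0 : ℝ) < N.totient := by exact_mod_cast Nat.totient_pos.2 (by omega)
  have hlN : 0 < Real.log N := Real.log_pos (by exact_mod_cast (by omega : 1 < N))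
  have hsys := sysN hN2 hNe hN8
  set V : ℝ := VF (fun _ => {(N : ℤ)}) (8 * x) with hV
  have hVlo : c1 * (c2 * (N / (N.totient * Real.log N ^ 2))) ≤ V := by
    refine le_trans (mul_le_mul_of_nonneg_left (hVlow N hN2 hNe) hc1.le) ?_
    exact hrat N (8 * x) (by omega) hN8 (by nlinarith) _ hsys.card hsys.loc
  have hVhi : V ≤ C2 * (N / (N.totient * Real.log N ^ 2)) :=
    (VF_mono hsys.loc hN8).1.trans (hVup N hN2 hNe)
  have hz : ((8 * x : ℕ) : ℝ) ^ (1 / 9 : ℝ) ≤ x := by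
    have h8 : ((8 * x : ℕ) : ℝ) ≤ (x : ℝ) ^ (2 : ℝ) := by
      rw [Real.rpow_two]
      push_cast
      nlinarith
    have h1 := Real.rpow_le_rpow (by positivity) h8 (show (0 : ℝ) ≤ 1 / 9 by norm_num)
    rw [← Real.rpow_mul hx0.le] at h1
    refine h1.trans ?_
    have := Real.rpow_le_rpow_of_exponent_le (show (1 : ℝ) ≤ x by linarith) (show (2 * (1 / 9) : ℝ) ≤ 1 by norm_num)
    rwa [Real.rpow_one] at this
  have hchen : (GoodF t (8 * x) x (2 * x) (fun _ => {(N : ℤ)}) N).card =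
      chen (((8 * x : ℕ) : ℝ) ^ (1 / 9 : ℝ)) (PI x (2 * x)) N := by
    unfold chen
    congr 1
    ext p
    rw [mem_filter, mem_good ht9 hx8 hN4 hN8]
  have hgc : gold (PI x (2 * x)) N ≤ chen (((8 * x : ℕ) : ℝ) ^ (1 / 9 : ℝ)) (PI x (2 * x)) N := by
    unfold gold chen
    apply card_le_card
    intro p hp
    rw [mem_filter] at hp ⊢
    refine ⟨hp.1, Or.inl hp.2, ?_⟩
    intro q hq hd
    have h3 := (Nat.prime_dvd_prime_iff_eq hq hp.2).1 hd
    have hpP := hp.1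
    unfold PI at hpP
    rw [mem_filter, mem_Ioc] at hpP
    have h4 : x < q := by omega
    have h5 : (x : ℝ) < q := by exact_mod_cast h4
    linarith
  have g1 := hX₁ (8 * x) (by omega) (fun _ => {(N : ℤ)}) N hsys x (2 * x) (by omega) hAB
  have g2 := hX₂ (8 * x) (by omega) (fun _ => {(N : ℤ)}) N hsys x (2 * x) (by omega) hAB
  have g3 : ((GoodF t0 (8 * x) x (2 * x) (fun _ => {(N : ℤ)}) N).card : ℝ) ≤
      (GoodF t (8 * x) x (2 * x) (fun _ => {(N : ℤ)}) N).card := by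
    exact_mod_cast card_le_card (GoodF_t ht0 (le_max_left _ _) (by omega) _ _)
  rw [← hV] at g1 g2
  rw [hABe] at g1 g2
  rw [hchen] at g2 g3
  have hxN8 : (N : ℝ) / 8 ≤ x := by
    have : (N : ℝ) ≤ 8 * x := by exact_mod_cast hN8
    linarith
  have hxN : (x : ℝ) ≤ N := by exact_mod_cast (by omega : x ≤ N)
  have hlow : c0 * c1 * c2 / 8 * (N / N.totient * (N / Real.log N ^ 2)) ≤
      chen (((8 * x : ℕ) : ℝ) ^ (1 / 9 : ℝ)) (PI x (2 * x)) N := by
    refine le_trans ?_ (g1.trans g3)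
    have h1 : (N : ℝ) / 8 * (c1 * (c2 * (N / (N.totient * Real.log N ^ 2)))) ≤ x * V :=
      mul_le_mul hxN8 hVlo (by positivity) hx0.le
    have h2 := mul_le_mul_of_nonneg_left h1 hc0.le
    have h3 : c0 * ((N : ℝ) / 8 * (c1 * (c2 * (N / (N.totient * Real.log N ^ 2))))) =
        c0 * c1 * c2 / 8 * (N / N.totient * (N / Real.log N ^ 2)) := by
      field_simp
    rw [h3] at h2
    exact h2.trans (le_of_eq (by ring))
  have hhigh : (chen (((8 * x : ℕ) : ℝ) ^ (1 / 9 : ℝ)) (PI x (2 * x)) N : ℝ) ≤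
      C0 * C2 * (N / N.totient * (N / Real.log N ^ 2)) := by
    refine g2.trans ?_
    have hV0 : 0 ≤ V := (VF_mono hsys.loc le_rfl).2
    have h1 : (x : ℝ) * V ≤ N * (C2 * (N / (N.totient * Real.log N ^ 2))) :=
      mul_le_mul hxN hVhi hV0 hNr.le
    have h2 := mul_le_mul_of_nonneg_left h1 hC0.le
    have h3 : C0 * ((N : ℝ) * (C2 * (N / (N.totient * Real.log N ^ 2)))) =
        C0 * C2 * (N / N.totient * (N / Real.log N ^ 2)) := by
      field_simp
    rw [h3] at h2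
    exact le_trans (le_of_eq (by ring)) h2
  refine ⟨hlow, hhigh, le_trans ?_ hhigh⟩
  exact_mod_cast hgc

end Pool.Agent.Q58.RM
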