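import Pool.Agent.Q253.Thin.Sample

/-!
# Nested sampling: a decreasing chain of subsets of a finite set that represents all sets of a family
-/

set_option autoImplicit false

namespace Pool.Agent.Q58.RM

open Finset
open Pool.Agent.Q253.Thin

/-- **Nested sampling.** -/
theorem chain {α ι : Type*} [DecidableEq α] (P : Finset α) (I : Finset ι) (R : ι → Finset α)
    (hR : ∀ i ∈ I, R i ⊆ P) {p δ : ℝ} (hp : 0 < p) (hp1 : p ≤ 1) (hδ : 0 < δ) (T : ι → ℝ) (n : ℕ)
    (hδn : 2 * n * δ ≤ 1)
    (hT : ∀ i ∈ I, 4 * Real.log (2 * I.card + 1) ≤ δ ^ 2 * (p ^ n * T i)) :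
    ∃ S : ℕ → Finset α, S 0 = P ∧ Antitone S ∧ (∀ a, n ≤ a → S a = S n) ∧ ∀ a ≤ n, ∀ i ∈ I,
      |((S a ∩ R i).card : ℝ) - p ^ a * (R i).card| ≤ 2 * a * δ * (p ^ a * max ((R i).card : ℝ) (T i)) := by
  induction n with
  | zero =>
    refine ⟨fun _ => P, rfl, antitone_const, fun _ _ => rfl, ?_⟩
    intro a ha i hi
    obtain rfl : a = 0 := by omega
    rw [inter_eq_right.2 (hR i hi)]
    simp
  | succ n ih =>
    push_cast at hδn
    have hn0 : (0 : ℝ) ≤ n := Nat.cast_nonneg n
    have hδ1 : δ ≤ 1 := by nlinarith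
    have hlog : 0 ≤ Real.log (2 * (I.card : ℝ) + 1) := Real.log_nonneg (by
      have : (0 : ℝ) ≤ I.card := Nat.cast_nonneg _
      linarith)
    have hT0 : ∀ i ∈ I, 0 ≤ T i := by
      intro i hi
      have h1 := hT i hi
      have h2 : 0 ≤ δ ^ 2 * (p ^ (n + 1) * T i) := le_trans (by positivity) h1
      have h3 : 0 < δ ^ 2 * p ^ (n + 1) := by positivity
      have h4 : δ ^ 2 * (p ^ (n + 1) * T i) = (δ ^ 2 * p ^ (n + 1)) * T i := by ring
      rw [h4] at h2
      exact nonneg_of_mul_nonneg_right h2 h3
    obtain ⟨S, hS0, hSa, hSn, hS⟩ := ih (by nlinarith) (by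
      intro i hi
      refine (hT i hi).trans ?_
      apply mul_le_mul_of_nonneg_left _ (by positivity)
      apply mul_le_mul_of_nonneg_right _ (hT0 i hi)
      rw [pow_succ]
      exact mul_le_of_le_one_right (by positivity) hp1)
    have hM0 : ∀ i ∈ I, 0 ≤ max ((R i).card : ℝ) (T i) := fun i hi => le_max_of_le_right (hT0 i hi)
    obtain ⟨S', hS'S, hS'⟩ := sampling (S n) I (fun i => S n ∩ R i) (fun i _ => inter_subset_left)
      hp.le hp1 hδ hδ1 (fun i => 2 * (p ^ (n + 1) * max ((R i).card : ℝ) (T i))) (by
        intro i hi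
        have h1 := (abs_le.1 (hS n le_rfl i hi)).2
        have h2 := hM0 i hi
        have h3 : p ^ n * ((R i).card : ℝ) ≤ p ^ n * max ((R i).card : ℝ) (T i) :=
          mul_le_mul_of_nonneg_left (le_max_left _ _) (by positivity)
        have h4 : 0 ≤ p ^ n * max ((R i).card : ℝ) (T i) := by positivity
        have h5 : 2 * n * δ * (p ^ n * max ((R i).card : ℝ) (T i)) ≤ p ^ n * max ((R i).card : ℝ) (T i) := by
          have : 2 * (n : ℝ) * δ ≤ 1 := by nlinarith
          nlinarith
        have h6 : ((S n ∩ R i).card : ℝ) ≤ 2 * (p ^ n * max ((R i).card : ℝ) (T i)) := by linarith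
        have h7 := mul_le_mul_of_nonneg_left h6 hp.le
        refine h7.trans (le_of_eq ?_)
        rw [pow_succ]
        ring) (by
        intro i hi
        refine (hT i hi).trans ?_
        apply mul_le_mul_of_nonneg_left _ (by positivity)
        have h1 : p ^ (n + 1) * T i ≤ p ^ (n + 1) * max ((R i).card : ℝ) (T i) :=
          mul_le_mul_of_nonneg_left (le_max_right _ _) (by positivity)
        have h2 : 0 ≤ p ^ (n + 1) * max ((R i).card : ℝ) (T i) := by
          have := hM0 i hi
          positivity
        linarith)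
    refine ⟨fun a => if a ≤ n then S a else S', ?_, ?_, ?_, ?_⟩
    · simp only [Nat.zero_le, if_true]
      exact hS0
    · intro a b hab
      simp only
      by_cases hb : b ≤ n
      · rw [if_pos hb, if_pos (hab.trans hb)]
        exact hSa hab
      · rw [if_neg hb]
        by_cases ha : a ≤ n
        · rw [if_pos ha]
          exact hS'S.trans (hSa ha)
        · rw [if_neg ha]
    · intro a ha
      simp only
      rw [if_neg (by omega), if_neg (by omega)]
    · intro a ha i hi
      simp only
      by_cases ha' : a ≤ n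
      · rw [if_pos ha']
        exact hS a ha' i hi
      · obtain rfl : a = n + 1 := by omega
        rw [if_neg (by omega)]
        have h1 := hS' i hi
        have h2 : S' ∩ (S n ∩ R i) = S' ∩ R i := by
          rw [← inter_assoc, inter_eq_left.2 hS'S]
        rw [h2] at h1
        have h3 := hS n le_rfl i hi
        have h4 : |p * ((S n ∩ R i).card : ℝ) - p ^ (n + 1) * (R i).card| ≤
            p * (2 * n * δ * (p ^ n * max ((R i).card : ℝ) (T i))) := by
          have h5 : p * ((S n ∩ R i).card : ℝ) - p ^ (n + 1) * (R i).card =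
              p * (((S n ∩ R i).card : ℝ) - p ^ n * (R i).card) := by
            rw [pow_succ]
            ring
          rw [h5, abs_mul, abs_of_pos hp]
          exact mul_le_mul_of_nonneg_left h3 hp.le
        have h6 := abs_sub_le ((S' ∩ R i).card : ℝ) (p * ((S n ∩ R i).card : ℝ)) (p ^ (n + 1) * (R i).card)
        refine h6.trans ((add_le_add h1 h4).trans (le_of_eq ?_))
        push_cast
        rw [pow_succ]
        ring

/-- strong recursion with choices -/
theorem exists_rec {β : Type*} [Inhabited β] (Φ : ℕ → (ℕ → β) → β → Prop) (h : ∀ i f, ∃ s, Φ i f s) :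
    ∃ A : ℕ → β, ∀ i, Φ i (fun j => if j < i then A j else default) (A i) := by
  classical
  let A : ℕ → β := WellFounded.fix Nat.lt_wfRel.wf
    (fun i ih => Classical.choose (h i (fun j => if hj : j < i then ih j hj else default)))
  refine ⟨A, fun i => ?_⟩
  have h1 : A i = Classical.choose (h i (fun j => if _hj : j < i then A j else default)) :=
    WellFounded.fix_eq Nat.lt_wfRel.wf _ i
  have h2 := Classical.choose_spec (h i (fun j => if _hj : j < i then A j else default))
  rw [← h1] at h2
  exact h2

end Pool.Agent.Q58.RM
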