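import Pool.Agent.Q58.RM.Model

/-!
# Nested random sets of primes: the number of pairs
-/

set_option autoImplicit false

namespace Pool.Agent.Q58.RM

open Finset Filter
open Pool.Agent.Q253.Thin

theorem split (X Y1 Y2 : Finset ℕ) {x N : ℕ} (hX : X ⊆ Ioc x (2 * x)) (hY1 : Y1 ⊆ Ioc (2 * x) (4 * x))
    (hY2 : Y2 ⊆ Ioc (4 * x) (8 * x)) (hN : 4 * x ≤ N) :
    (X.filter (fun p => N - p ∈ Y1 ∪ Y2)).card =
      (Y1.filter (fun q => N - q ∈ X)).card + (Y2.filter (fun q => N - q ∈ X)).card := by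
  classical
  have hd : Disjoint (Y1.filter (fun q => N - q ∈ X)) (Y2.filter (fun q => N - q ∈ X)) := by
    rw [disjoint_left]
    intro q h1 h2
    rw [mem_filter] at h1 h2
    have h3 := mem_Ioc.1 (hY1 h1.1)
    have h4 := mem_Ioc.1 (hY2 h2.1)
    omega
  rw [← card_union_of_disjoint hd, ← filter_union]
  apply card_bij' (fun p _ => N - p) (fun q _ => N - q)
  · intro p hp
    rw [mem_filter] at hp ⊢
    have h1 := mem_Ioc.1 (hX hp.1)
    rw [show N - (N - p) = p by omega]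
    exact ⟨hp.2, hp.1⟩
  · intro q hq
    rw [mem_filter] at hq ⊢
    have h1 := mem_Ioc.1 (hX hq.2)
    rw [show N - (N - q) = q by omega]
    exact ⟨hq.2, hq.1⟩
  · intro p hp
    rw [mem_filter] at hp
    have h1 := mem_Ioc.1 (hX hp.1)
    show N - (N - p) = p
    omega
  · intro q hq
    rw [mem_filter] at hq
    have h1 := mem_Ioc.1 (hX hq.2)
    show N - (N - q) = q
    omega

theorem P_mem {i p : ℕ} : p ∈ P i ↔ (2 ^ i < p ∧ p ≤ 2 * 2 ^ i) ∧ p.Prime := by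
  unfold P PI
  rw [mem_filter, mem_Ioc]

theorem sub_Ioc {A : ℕ → ℕ → Finset ℕ} (h0 : ∀ i, A i 0 = P i) (ha : ∀ i, Antitone (A i)) (i a : ℕ) :
    A i a ⊆ P i := by
  rw [← h0 i]
  exact ha i (Nat.zero_le a)

theorem block_unique {i j p : ℕ} (h1 : 2 ^ i < p) (h2 : p ≤ 2 * 2 ^ i) (h3 : 2 ^ j < p) (h4 : p ≤ 2 * 2 ^ j) :
    i = j := by
  rcases lt_trichotomy i j with h | h | h
  · have : 2 ^ (i + 1) ≤ 2 ^ j := Nat.pow_le_pow_right (by norm_num) h
    rw [pow_succ] at this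
    omega
  · exact h
  · have : 2 ^ (j + 1) ≤ 2 ^ i := Nat.pow_le_pow_right (by norm_num) h
    rw [pow_succ] at this
    omega

/-- the set of all levels -/
def lev (A : ℕ → ℕ → Finset ℕ) (a : ℕ) : Set ℕ := {p | ∃ i, p ∈ A i a}

theorem mem_lev {A : ℕ → ℕ → Finset ℕ} (h0 : ∀ i, A i 0 = P i) (ha : ∀ i, Antitone (A i)) {i a p : ℕ}
    (h1 : 2 ^ i < p) (h2 : p ≤ 2 * 2 ^ i) : p ∈ lev A a ↔ p ∈ A i a := by
  constructor
  · rintro ⟨j, hj⟩
    obtain ⟨⟨h3, h4⟩, -⟩ := P_mem.1 (sub_Ioc h0 ha j a hj)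
    rw [block_unique h1 h2 h3 h4]
    exact hj
  · exact fun h => ⟨i, h⟩

theorem lev_zero {A : ℕ → ℕ → Finset ℕ} (h0 : ∀ i, A i 0 = P i) : lev A 0 = {p | p.Prime} := by
  ext p
  constructor
  · rintro ⟨i, hi⟩
    rw [h0, P_mem] at hi
    exact hi.2
  · intro hp
    have hp' : p.Prime := hp
    have h2 := hp'.two_le
    refine ⟨Nat.log 2 (p - 1), ?_⟩
    rw [h0, P_mem]
    refine ⟨⟨?_, ?_⟩, hp'⟩
    · have := Nat.pow_log_le_self 2 (show p - 1 ≠ 0 by omega)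
      omega
    · have := Nat.lt_pow_succ_log_self (show 1 < 2 by norm_num) (p - 1)
      rw [pow_succ] at this
      omega

/-- the number of the pairs -/
noncomputable def pairs (X Y : Set ℕ) (x N : ℕ) : ℕ := Set.ncard {p | p ∈ X ∧ x < p ∧ p ≤ 2 * x ∧ N - p ∈ Y}

theorem pairs_eq {A : ℕ → ℕ → Finset ℕ} (h0 : ∀ i, A i 0 = P i) (ha : ∀ i, Antitone (A i)) {j N : ℕ}
    (hj : 1 ≤ j) (hN4 : 4 * 2 ^ j ≤ N) (hN8 : N ≤ 8 * 2 ^ j) (a b : ℕ) :
    pairs (lev A a) (lev A b) (2 ^ j) N =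
      ((A (j + 1) b).filter (fun q => N - q ∈ A j a)).card +
      ((A (j + 2) b).filter (fun q => N - q ∈ A j a)).card := by
  classical
  have e1 : 2 ^ (j + 1) = 2 * 2 ^ j := by ring
  have e2 : 2 ^ (j + 2) = 4 * 2 ^ j := by ring
  rw [← split (x := 2 ^ j) (A j a) (A (j + 1) b) (A (j + 2) b) ?_ ?_ ?_ hN4]
  · unfold pairs
    rw [← Set.ncard_coe_finset]
    congr 1
    ext p
    rw [coe_filter, Set.mem_ofPred_eq, Set.mem_ofPred_eq, mem_union]
    constructor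
    · rintro ⟨h1, h2, h3, i, hi⟩
      refine ⟨(mem_lev h0 ha h2 h3).1 h1, ?_⟩
      obtain ⟨⟨h4, h5⟩, h6⟩ := P_mem.1 (sub_Ioc h0 ha i b hi)
      have h7 : i < j + 3 := by
        by_contra hcon
        have : 2 ^ (j + 3) ≤ 2 ^ i := Nat.pow_le_pow_right (by norm_num) (by omega)
        have e3 : 2 ^ (j + 3) = 8 * 2 ^ j := by ring
        omega
      have h8 : j < i := by
        by_contra hcon
        have h9 : 2 ^ i ≤ 2 ^ j := Nat.pow_le_pow_right (by norm_num) (by omega)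
        have h10 : N - p = 2 ^ (j + 1) := by omega
        rw [h10] at h6
        exact Nat.Prime.eq_one_of_pow h6 |> fun h => by omega
      have h9 : i = j + 1 ∨ i = j + 2 := by omega
      rcases h9 with h9 | h9
      · left
        rw [h9] at hi
        exact hi
      · right
        rw [h9] at hi
        exact hi
    · rintro ⟨h1, h2⟩
      obtain ⟨⟨h4, h5⟩, h6⟩ := P_mem.1 (sub_Ioc h0 ha j a h1)
      refine ⟨⟨j, h1⟩, h4, h5, ?_⟩
      rcases h2 with h2 | h2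
      · exact ⟨_, h2⟩
      · exact ⟨_, h2⟩
  · intro p hp
    obtain ⟨⟨h4, h5⟩, h6⟩ := P_mem.1 (sub_Ioc h0 ha j a hp)
    exact mem_Ioc.2 ⟨h4, h5⟩
  · intro p hp
    obtain ⟨⟨h4, h5⟩, h6⟩ := P_mem.1 (sub_Ioc h0 ha _ b hp)
    rw [e1] at h4 h5
    exact mem_Ioc.2 ⟨h4, by omega⟩
  · intro p hp
    obtain ⟨⟨h4, h5⟩, h6⟩ := P_mem.1 (sub_Ioc h0 ha _ b hp)
    rw [e2] at h4 h5
    exact mem_Ioc.2 ⟨h4, by omega⟩

theorem pairs_filter {A : ℕ → ℕ → Finset ℕ} (h0 : ∀ i, A i 0 = P i) (ha : ∀ i, Antitone (A i)) (j N a : ℕ)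
    (Y : Set ℕ) [DecidablePred (fun p => N - p ∈ Y)] :
    pairs (lev A a) Y (2 ^ j) N = ((A j a).filter (fun p => N - p ∈ Y)).card := by
  classical
  unfold pairs
  rw [← Set.ncard_coe_finset]
  congr 1
  ext p
  rw [coe_filter, Set.mem_ofPred_eq, Set.mem_ofPred_eq]
  constructor
  · rintro ⟨h1, h2, h3, h4⟩
    exact ⟨(mem_lev h0 ha h2 h3).1 h1, h4⟩
  · rintro ⟨h1, h2⟩
    obtain ⟨⟨h4, h5⟩, h6⟩ := P_mem.1 (sub_Ioc h0 ha j a h1)
    exact ⟨⟨j, h1⟩, h4, h5, h2⟩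

theorem gold_eq {A : ℕ → ℕ → Finset ℕ} (h0 : ∀ i, A i 0 = P i) (ha : ∀ i, Antitone (A i)) (j N a : ℕ) :
    pairs (lev A a) {p | p.Prime} (2 ^ j) N = gold (A j a) N :=
  pairs_filter h0 ha j N a {p | p.Prime}

/-- the logarithms agree -/
theorem weights (b : ℕ) {η : ℝ} (hη : 0 < η) : ∃ j₀ : ℕ, 2 ≤ j₀ ∧ ∀ j : ℕ, j₀ ≤ j → ∀ i : ℕ, j ≤ i → i ≤ j + 2 →
    ∀ N : ℕ, 4 * 2 ^ j ≤ N → N ≤ 8 * 2 ^ j →
      (1 / Real.log N) ^ b ≤ (1 / L i) ^ b ∧ (1 / L i) ^ b ≤ (1 + η) * (1 / Real.log N) ^ b := by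
  have hlim : Tendsto (fun j : ℕ => (1 + 3 / (j : ℝ)) ^ b) atTop (nhds 1) := by
    have h1 : Tendsto (fun j : ℕ => 3 / (j : ℝ)) atTop (nhds 0) := tendsto_const_div_atTop_nhds_zero_nat 3
    have h2 := (h1.const_add 1).pow b
    simpa using h2
  obtain ⟨j₁, hj₁⟩ := eventually_atTop.1 (hlim.eventually (Iic_mem_nhds (show (1 : ℝ) < 1 + η by linarith)))
  refine ⟨max j₁ 2, le_max_right _ _, fun j hj i hji hi N hN4 hN8 => ?_⟩
  have hj2 : 2 ≤ j := (le_max_right _ _).trans hj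
  have h1 : (1 + 3 / (j : ℝ)) ^ b ≤ 1 + η := hj₁ j ((le_max_left _ _).trans hj)
  have hl2 : 0 < Real.log 2 := Real.log_pos (by norm_num)
  have hjr : (2 : ℝ) ≤ j := by exact_mod_cast hj2
  have hir : (j : ℝ) ≤ i := by exact_mod_cast hji
  have hir2 : (i : ℝ) ≤ j + 2 := by exact_mod_cast hi
  have hLi : L i = i * Real.log 2 := L_eq i
  have hLi0 : 0 < L i := by
    rw [hLi]
    nlinarith
  have hN0 : (0 : ℝ) < N := by
    have : 0 < 2 ^ j := by positivity
    exact_mod_cast (by omega : 0 < N)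
  have hNu : Real.log N ≤ (j + 3) * Real.log 2 := by
    have h2 : (N : ℝ) ≤ (2 : ℝ) ^ (j + 3) := by
      have : N ≤ 2 ^ (j + 3) := by
        rw [pow_add]
        omega
      exact_mod_cast this
    have h3 := Real.log_le_log hN0 h2
    rw [Real.log_pow] at h3
    push_cast at h3
    exact h3
  have hNl : (j + 2) * Real.log 2 ≤ Real.log N := by
    have h2 : (2 : ℝ) ^ (j + 2) ≤ N := by
      have : 2 ^ (j + 2) ≤ N := by
        rw [pow_add]
        omega
      exact_mod_cast this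
    have h3 := Real.log_le_log (by positivity) h2
    rw [Real.log_pow] at h3
    push_cast at h3
    exact h3
  have hLN : L i ≤ Real.log N := by
    rw [hLi]
    nlinarith
  have hlN0 : 0 < Real.log N := lt_of_lt_of_le hLi0 hLN
  constructor
  · apply pow_le_pow_left₀ (by positivity)
    exact one_div_le_one_div_of_le hLi0 hLN
  · have h2 : 1 / L i ≤ (1 + 3 / (j : ℝ)) * (1 / Real.log N) := by
      rw [mul_one_div, div_le_div_iff₀ hLi0 hlN0, one_mul]
      have h3 : Real.log N * j ≤ (j + 3) * L i := by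
        rw [hLi]
        have h4 : Real.log N * j ≤ (j + 3) * Real.log 2 * j := mul_le_mul_of_nonneg_right hNu (by linarith)
        have h5 : ((j : ℝ) + 3) * Real.log 2 * j ≤ (j + 3) * Real.log 2 * i :=
          mul_le_mul_of_nonneg_left hir (by positivity)
        linarith
      have h6 : (1 + 3 / (j : ℝ)) * L i = (j + 3) * L i / j := by
        field_simp
      rw [h6, le_div_iff₀ (by linarith)]
      exact h3
    have h3 := pow_le_pow_left₀ (by positivity) h2 b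
    rw [mul_pow] at h3
    refine h3.trans ?_
    apply mul_le_mul_of_nonneg_right h1 (by positivity)

/-- the small term -/
theorem small (n a : ℕ) (hn : a + 1 ≤ n) : ∃ j₀ : ℕ, 2 ≤ j₀ ∧ ∀ j : ℕ, j₀ ≤ j → ∀ i : ℕ, j ≤ i → i ≤ j + 2 →
    ∀ N : ℕ, 4 * 2 ^ j ≤ N → N ≤ 8 * 2 ^ j →
      (2 : ℝ) ^ i / L i ^ (n + 2) ≤ (1 / L j) ^ a * (N / N.totient * (N / Real.log N ^ 2)) := by
  obtain ⟨j₁, hj₁2, hj₁⟩ := weights 2 (η := 1) one_pos
  refine ⟨max j₁ 3, (le_max_right _ _).trans' (by norm_num), fun j hj i hji hi N hN4 hN8 => ?_⟩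
  have hj3 : 3 ≤ j := (le_max_right _ _).trans hj
  obtain ⟨h1, h2⟩ := hj₁ j ((le_max_left _ _).trans hj) i hji hi N hN4 hN8
  have hLj : 1 ≤ L j := one_le_L (by omega)
  have hLij : L j ≤ L i := by
    rw [L_eq, L_eq]
    apply mul_le_mul_of_nonneg_right _ (Real.log_nonneg (by norm_num))
    exact_mod_cast hji
  have hLi2 : 2 ≤ L i := by
    rw [L_eq]
    have h := Real.log_two_gt_d9
    have : (3 : ℝ) ≤ i := by exact_mod_cast (by omega : 3 ≤ i)
    nlinarith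
  have hpos : 0 < 2 ^ j := by positivity
  have hN1 : 1 < N := by omega
  have hN0 : (0 : ℝ) < N := by exact_mod_cast (by omega : 0 < N)
  have hlN : 0 < Real.log N := Real.log_pos (by exact_mod_cast hN1)
  have hφ : (0 : ℝ) < N.totient := by exact_mod_cast Nat.totient_pos.2 (by omega)
  have hφN : (N.totient : ℝ) ≤ N := by exact_mod_cast Nat.totient_le N
  have h3 : (2 : ℝ) ^ i ≤ N := by
    have h4 : 2 ^ i ≤ 2 ^ (j + 2) := Nat.pow_le_pow_right (by norm_num) hi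
    have h5 : 2 ^ (j + 2) ≤ N := by
      rw [pow_add]
      omega
    exact_mod_cast h4.trans h5
  have h4 : L i ^ (n + 2) = L i ^ (n - a) * (L i ^ a * L i ^ 2) := by
    rw [← pow_add, ← pow_add]
    congr 1
    omega
  have hLi0 : 0 < L i := by linarith
  have hLj0 : 0 < L j := by linarith
  have h5 : 2 ≤ L i ^ (n - a) := by
    calc (2 : ℝ) ≤ L i := hLi2
      _ = L i ^ 1 := (pow_one _).symm
      _ ≤ _ := pow_le_pow_right₀ (by linarith) (by omega)
  have h6 : (2 : ℝ) ^ i / L i ^ (n + 2) ≤ N * (1 / 2) * ((1 / L i) ^ a * (1 / L i) ^ 2) := by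
    rw [h4, div_eq_mul_one_div, mul_assoc (N : ℝ)]
    apply mul_le_mul h3 _ (by positivity) hN0.le
    rw [one_div, mul_inv, mul_inv, one_div_pow, one_div_pow, one_div, one_div, one_div]
    have h7 : (L i ^ (n - a))⁻¹ ≤ 2⁻¹ := inv_anti₀ (by norm_num) h5
    exact mul_le_mul_of_nonneg_right h7 (by positivity)
  have h7 : (1 / L i) ^ a ≤ (1 / L j) ^ a :=
    pow_le_pow_left₀ (by positivity) (one_div_le_one_div_of_le hLj0 hLij) a
  have h8 : (1 / L i) ^ a * (1 / L i) ^ 2 ≤ (1 / L j) ^ a * ((1 + 1) * (1 / Real.log N) ^ 2) :=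
    mul_le_mul h7 h2 (by positivity) (by positivity)
  refine h6.trans ((mul_le_mul_of_nonneg_left h8 (by positivity)).trans ?_)
  have h9 : (N : ℝ) * (1 / 2) * ((1 / L j) ^ a * ((1 + 1) * (1 / Real.log N) ^ 2)) =
      (1 / L j) ^ a * (1 * (N / Real.log N ^ 2)) := by
    rw [one_div_pow, one_div_pow]
    ring
  rw [h9]
  apply mul_le_mul_of_nonneg_left _ (by positivity)
  apply mul_le_mul_of_nonneg_right _ (by positivity)
  rw [le_div_iff₀ hφ, one_mul]
  exact hφN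

/-- **The number of pairs.** -/
theorem count {A : ℕ → ℕ → Finset ℕ} (h0 : ∀ i, A i 0 = P i) (ha : ∀ i, Antitone (A i))
    (hg : ∀ n : ℕ, ∃ i₁ : ℕ, ∀ i : ℕ, i₁ ≤ i → Good A n i) (a b : ℕ) {ε : ℝ} (hε : 0 < ε) :
    ∃ j₀ : ℕ, ∀ j : ℕ, j₀ ≤ j → ∀ N : ℕ, Even N → 4 * 2 ^ j ≤ N → N ≤ 8 * 2 ^ j →
      |(pairs (lev A a) (lev A b) (2 ^ j) N : ℝ) - (1 / Real.log N) ^ (a + b) * gold (P j) N| ≤
        ε * ((1 / Real.log N) ^ (a + b) * (N / N.totient * (N / Real.log N ^ 2))) := by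
  classical
  obtain ⟨c, C₀, hc, hC₀, x₀, hbase⟩ := base
  set C : ℝ := max C₀ 1 with hC
  have hC1 : 1 ≤ C := le_max_right _ _
  have hCC : C₀ ≤ C := le_max_left _ _
  set η : ℝ := min 1 (ε / (23 * C)) with hη
  have hη0 : 0 < η := by positivity
  have hη1 : η ≤ 1 := min_le_left _ _
  have hη2 : 23 * C * η ≤ ε := by
    have h1 : η ≤ ε / (23 * C) := min_le_right _ _
    rw [le_div_iff₀ (by positivity)] at h1
    linarith
  obtain ⟨n₀, hn₀⟩ := exists_nat_gt (1 / η)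
  set n := max n₀ (a + b + 1) with hn
  have hnr : (n₀ : ℝ) ≤ n := by exact_mod_cast le_max_left _ _
  have hν : 1 / ((n : ℝ) + 1) ≤ η := by
    rw [div_le_iff₀ (by positivity)]
    rw [div_lt_iff₀ hη0] at hn₀
    nlinarith
  have hν0 : 0 < 1 / ((n : ℝ) + 1) := by positivity
  have han : a + 1 ≤ n := by omega
  have hbn : b ≤ n := by omega
  have h0n : 0 + 1 ≤ n := by omega
  obtain ⟨i₁, hi₁⟩ := hg n
  obtain ⟨ja, hja2, hja⟩ := weights a hη0
  obtain ⟨jb, hjb2, hjb⟩ := weights b hη0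
  obtain ⟨js, hjs2, hjs⟩ := small n a han
  obtain ⟨jt, hjt2, hjt⟩ := small n 0 h0n
  refine ⟨max (max (max i₁ ja) (max jb js)) (max (max jt x₀) (max b a)), fun j hj N hNe hN4 hN8 => ?_⟩
  simp only [max_le_iff] at hj
  obtain ⟨⟨⟨hji, hjja⟩, hjjb, hjjs⟩, ⟨hjjt, hjx⟩, hjb', hja'⟩ := hj
  have g0 := hi₁ j hji
  have g1 := hi₁ (j + 1) (by omega)
  have g2 := hi₁ (j + 2) (by omega)
  obtain ⟨wa1, wa2⟩ := hja j hjja j le_rfl (by omega) N hN4 hN8
  obtain ⟨wb11, wb12⟩ := hjb j hjjb (j + 1) (by omega) (by omega) N hN4 hN8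
  obtain ⟨wb21, wb22⟩ := hjb j hjjb (j + 2) (by omega) (by omega) N hN4 hN8
  have s1 := hjs j hjjs (j + 1) (by omega) (by omega) N hN4 hN8
  have s2 := hjs j hjjs (j + 2) (by omega) (by omega) N hN4 hN8
  have s0 := hjt j hjjt j le_rfl (by omega) N hN4 hN8
  rw [pow_zero, one_mul] at s0
  have hxj : x₀ ≤ 2 ^ j := hjx.trans Nat.lt_two_pow_self.le
  obtain ⟨-, -, hgold⟩ := hbase (2 ^ j) hxj N hNe hN4 hN8
  have hj1 : 1 ≤ j := by omega
  have hpos : 0 < 2 ^ j := by positivity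
  have hN1 : 1 < N := by omega
  have hN0 : (0 : ℝ) < N := by exact_mod_cast (by omega : 0 < N)
  have hlN : 0 < Real.log N := Real.log_pos (by exact_mod_cast hN1)
  have hφ : (0 : ℝ) < N.totient := by exact_mod_cast Nat.totient_pos.2 (by omega)
  set u : ℝ := 1 / Real.log N with hu
  have hu0 : 0 < u := by positivity
  set G : ℝ := (N : ℝ) / N.totient * (N / Real.log N ^ 2) with hG
  have hG0 : 0 < G := by positivity
  set wj : ℝ := (1 / L j) ^ a with hwj
  set w1 : ℝ := (1 / L (j + 1)) ^ b with hw1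
  set w2 : ℝ := (1 / L (j + 2)) ^ b with hw2
  have hua : 0 < u ^ a := by positivity
  have hub : 0 < u ^ b := by positivity
  have hwj0 : 0 < wj := lt_of_lt_of_le hua wa1
  have hw10 : 0 < w1 := lt_of_lt_of_le hub wb11
  have hw20 : 0 < w2 := lt_of_lt_of_le hub wb21
  have e1 : 2 ^ (j + 1) = 2 * 2 ^ j := by ring
  have e2 : 2 ^ (j + 2) = 4 * 2 ^ j := by ring
  -- the counts
  set g : ℝ := (gold (P j) N : ℝ) with hgdef
  have hg0 : 0 ≤ g := Nat.cast_nonneg _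
  have hgC : g ≤ C * G := by
    have h1 : (gold (PI (2 ^ j) (2 * 2 ^ j)) N : ℝ) ≤ C₀ * G := hgold
    have h2 : C₀ * G ≤ C * G := mul_le_mul_of_nonneg_right hCC hG0.le
    exact h1.trans h2
  have hsplit := pairs_eq h0 ha hj1 hN4 hN8 a b
  have hsplit0 := pairs_eq h0 ha hj1 hN4 hN8 a 0
  rw [lev_zero h0, gold_eq h0 ha, h0, h0] at hsplit0
  have q1 := g1.prev b hbn N (by omega) a (by omega) j (by omega)
  have q2 := g2.prev b hbn N (by omega) a (by omega) j (by omega)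
  have q0 := g0.gold a (by omega) N hN8
  set c1 : ℝ := (((A (j + 1) b).filter (fun q => N - q ∈ A j a)).card : ℝ) with hc1
  set c2 : ℝ := (((A (j + 2) b).filter (fun q => N - q ∈ A j a)).card : ℝ) with hc2
  set r1 : ℝ := (((P (j + 1)).filter (fun q => N - q ∈ A j a)).card : ℝ) with hr1
  set r2 : ℝ := (((P (j + 2)).filter (fun q => N - q ∈ A j a)).card : ℝ) with hr2
  set ga : ℝ := (gold (A j a) N : ℝ) with hga
  have hr10 : 0 ≤ r1 := Nat.cast_nonneg _
  have hr20 : 0 ≤ r2 := Nat.cast_nonneg _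
  have hr12 : r1 + r2 = ga := by
    rw [hga, hsplit0]
    push_cast
    rfl
  have hpc : (pairs (lev A a) (lev A b) (2 ^ j) N : ℝ) = c1 + c2 := by
    rw [hsplit]
    push_cast
    rfl
  rw [hpc]
  have hCG : G ≤ C * G := le_mul_of_one_le_left hG0.le hC1
  -- the first level
  have hmax0 : max g (2 ^ j / L j ^ (n + 2)) ≤ C * G := max_le hgC (s0.trans hCG)
  have k0 : |ga - wj * g| ≤ η * (wj * (C * G)) := by
    refine q0.trans ?_
    apply mul_le_mul hν _ _ hη0.le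
    · exact mul_le_mul_of_nonneg_left hmax0 hwj0.le
    · have : 0 ≤ max g (2 ^ j / L j ^ (n + 2)) := le_max_of_le_left hg0
      positivity
  have hga2 : ga ≤ 2 * (wj * (C * G)) := by
    have h1 := (abs_le.1 k0).2
    have h2 : wj * g ≤ wj * (C * G) := mul_le_mul_of_nonneg_left hgC hwj0.le
    have h3 : η * (wj * (C * G)) ≤ wj * (C * G) := mul_le_of_le_one_left (by positivity) hη1
    linarith
  have hwju : wj ≤ 2 * u ^ a := by
    refine wa2.trans ?_
    apply mul_le_mul_of_nonneg_right _ hua.le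
    linarith
  have hw1u : w1 ≤ 2 * u ^ b := by
    refine wb12.trans ?_
    apply mul_le_mul_of_nonneg_right _ hub.le
    linarith
  have hw2u : w2 ≤ 2 * u ^ b := by
    refine wb22.trans ?_
    apply mul_le_mul_of_nonneg_right _ hub.le
    linarith
  set Z : ℝ := u ^ a * (C * G) with hZ
  have hZ0 : 0 < Z := by positivity
  have hwjZ : wj * (C * G) ≤ 2 * Z := by
    have := mul_le_mul_of_nonneg_right hwju (show 0 ≤ C * G by positivity)
    rw [hZ]
    linarith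
  have hgaZ : ga ≤ 4 * Z := by linarith
  have hm1 : max r1 (2 ^ (j + 1) / L (j + 1) ^ (n + 2)) ≤ 4 * Z := by
    apply max_le (by linarith)
    have h1 : wj * G ≤ wj * (C * G) := mul_le_mul_of_nonneg_left hCG hwj0.le
    linarith
  have hm2 : max r2 (2 ^ (j + 2) / L (j + 2) ^ (n + 2)) ≤ 4 * Z := by
    apply max_le (by linarith)
    have h1 : wj * G ≤ wj * (C * G) := mul_le_mul_of_nonneg_left hCG hwj0.le
    linarith
  have k1 : |c1 - w1 * r1| ≤ η * (8 * (u ^ b * Z)) := by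
    refine q1.trans ?_
    apply mul_le_mul hν _ _ hη0.le
    · have h1 := mul_le_mul hw1u hm1 (le_max_of_le_left hr10) (by positivity)
      refine h1.trans (le_of_eq ?_)
      ring
    · have : 0 ≤ max r1 (2 ^ (j + 1) / L (j + 1) ^ (n + 2)) := le_max_of_le_left hr10
      positivity
  have k2 : |c2 - w2 * r2| ≤ η * (8 * (u ^ b * Z)) := by
    refine q2.trans ?_
    apply mul_le_mul hν _ _ hη0.le
    · have h1 := mul_le_mul hw2u hm2 (le_max_of_le_left hr20) (by positivity)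
      refine h1.trans (le_of_eq ?_)
      ring
    · have : 0 ≤ max r2 (2 ^ (j + 2) / L (j + 2) ^ (n + 2)) := le_max_of_le_left hr20
      positivity
  have l1 : |w1 * r1 - u ^ b * r1| ≤ η * (u ^ b * r1) := by
    rw [← sub_mul, abs_mul, abs_of_nonneg hr10, abs_of_nonneg (by linarith)]
    have h1 := mul_le_mul_of_nonneg_right wb12 hr10
    have h2 : (1 + η) * u ^ b * r1 = u ^ b * r1 + η * (u ^ b * r1) := by ring
    rw [sub_mul]
    linarith
  have l2 : |w2 * r2 - u ^ b * r2| ≤ η * (u ^ b * r2) := by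
    rw [← sub_mul, abs_mul, abs_of_nonneg hr20, abs_of_nonneg (by linarith)]
    have h1 := mul_le_mul_of_nonneg_right wb22 hr20
    have h2 : (1 + η) * u ^ b * r2 = u ^ b * r2 + η * (u ^ b * r2) := by ring
    rw [sub_mul]
    linarith
  have l3 : |u ^ b * ga - u ^ b * (wj * g)| ≤ u ^ b * (η * (2 * Z)) := by
    rw [← mul_sub, abs_mul, abs_of_pos hub]
    apply mul_le_mul_of_nonneg_left _ hub.le
    refine k0.trans (mul_le_mul_of_nonneg_left hwjZ hη0.le)
  have l4 : |u ^ b * (wj * g) - u ^ b * (u ^ a * g)| ≤ u ^ b * (η * Z) := by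
    rw [← mul_sub, abs_mul, abs_of_pos hub, ← sub_mul, abs_mul, abs_of_nonneg hg0,
      abs_of_nonneg (by linarith : 0 ≤ wj - u ^ a)]
    apply mul_le_mul_of_nonneg_left _ hub.le
    have h1 : wj - u ^ a ≤ η * u ^ a := by linarith
    have h2 := mul_le_mul h1 hgC hg0 (by positivity)
    refine h2.trans (le_of_eq ?_)
    rw [hZ]
    ring
  have hfin : |c1 + c2 - u ^ (a + b) * g| ≤ 23 * η * (u ^ b * Z) := by
    obtain ⟨k1l, k1u⟩ := abs_le.1 k1
    obtain ⟨k2l, k2u⟩ := abs_le.1 k2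
    obtain ⟨l1l, l1u⟩ := abs_le.1 l1
    obtain ⟨l2l, l2u⟩ := abs_le.1 l2
    obtain ⟨l3l, l3u⟩ := abs_le.1 l3
    obtain ⟨l4l, l4u⟩ := abs_le.1 l4
    have hgb : η * (u ^ b * r1) + η * (u ^ b * r2) ≤ η * (4 * (u ^ b * Z)) := by
      have h1 : u ^ b * ga ≤ u ^ b * (4 * Z) := mul_le_mul_of_nonneg_left hgaZ hub.le
      have h2 : η * (u ^ b * r1) + η * (u ^ b * r2) = η * (u ^ b * ga) := by
        rw [← hr12]
        ring
      rw [h2]
      apply mul_le_mul_of_nonneg_left _ hη0.le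
      linarith
    have hga' : u ^ b * r1 + u ^ b * r2 = u ^ b * ga := by
      rw [← hr12]
      ring
    have hab : u ^ (a + b) * g = u ^ b * (u ^ a * g) := by
      rw [pow_add]
      ring
    rw [hab, abs_le]
    constructor <;> linarith
  refine hfin.trans ?_
  have h1 : 23 * η * (u ^ b * Z) = 23 * C * η * (u ^ (a + b) * G) := by
    rw [hZ, pow_add]
    ring
  rw [h1]
  exact mul_le_mul_of_nonneg_right hη2 (by positivity)

end Pool.Agent.Q58.RM
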