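import Pool.Agent.Q58.RM.Count

/-!
# Nested random sets of primes: windows, Chen counts and the equivalences
-/

set_option autoImplicit false

namespace Pool.Agent.Q58.RM

open Finset Filter
open Pool.Agent.Q253.Thin

theorem window {A : ℕ → ℕ → Finset ℕ} (hg : ∀ n : ℕ, ∃ i₁ : ℕ, ∀ i : ℕ, i₁ ≤ i → Good A n i) (a : ℕ) {ε : ℝ}
    (hε : 0 < ε) : ∃ i₀ : ℕ, ∀ i : ℕ, i₀ ≤ i → ∀ y ≤ 2 * 2 ^ i,
      |(((A i a).filter (fun p => p ≤ y)).card : ℝ) - (1 / L i) ^ a * ((P i).filter (fun p => p ≤ y)).card| ≤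
        ε * ((1 / L i) ^ a * (2 ^ i / L i)) := by
  obtain ⟨n₀, hn₀⟩ := exists_nat_gt (4 / ε)
  set n := max n₀ a with hn
  have hnr : (n₀ : ℝ) ≤ n := by exact_mod_cast le_max_left _ _
  have han : a ≤ n := le_max_right _ _
  have hν : 1 / ((n : ℝ) + 1) * 4 ≤ ε := by
    rw [one_div_mul_eq_div, div_le_iff₀ (by positivity)]
    rw [div_lt_iff₀ hε] at hn₀
    nlinarith
  obtain ⟨i₁, hi₁⟩ := hg n
  obtain ⟨X₀, hX₀⟩ := PI_upper
  refine ⟨max (max i₁ 2) X₀, fun i hi y hy => ?_⟩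
  simp only [max_le_iff] at hi
  obtain ⟨⟨h1, h2⟩, h3⟩ := hi
  have hL1 := one_le_L h2
  have hL0 : 0 < L i := by linarith
  refine ((hi₁ i h1).win a han y hy).trans ?_
  have hpow : i ≤ 2 ^ i := Nat.lt_two_pow_self.le
  have h4 := hX₀ (2 * 2 ^ i) (by omega) (2 ^ i) (2 * 2 ^ i) le_rfl
  have h5 : (((P i).filter (fun p => p ≤ y)).card : ℝ) ≤ 4 * (2 ^ i / L i) := by
    have h6 : (((P i).filter (fun p => p ≤ y)).card : ℝ) ≤ (PI (2 ^ i) (2 * 2 ^ i)).card := by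
      exact_mod_cast card_le_card (filter_subset _ _)
    refine h6.trans (h4.trans ?_)
    have h7 : L i ≤ Real.log ((2 * 2 ^ i : ℕ) : ℝ) := by
      unfold L
      apply Real.log_le_log (by positivity)
      exact_mod_cast (by omega : 2 ^ i ≤ 2 * 2 ^ i)
    have h8 : ((2 * 2 ^ i : ℕ) : ℝ) / Real.log ((2 * 2 ^ i : ℕ) : ℝ) ≤ ((2 * 2 ^ i : ℕ) : ℝ) / L i :=
      div_le_div_of_nonneg_left (by positivity) hL0 h7
    refine (mul_le_mul_of_nonneg_left h8 (by norm_num)).trans (le_of_eq ?_)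
    push_cast
    ring
  have h6 : (2 : ℝ) ^ i / L i ^ (n + 2) ≤ 4 * (2 ^ i / L i) := by
    have h7 : (2 : ℝ) ^ i / L i ^ (n + 2) ≤ 2 ^ i / L i := by
      apply div_le_div_of_nonneg_left (by positivity) hL0
      calc L i = L i ^ 1 := (pow_one _).symm
        _ ≤ _ := pow_le_pow_right₀ hL1 (by omega)
    have h8 : (0 : ℝ) ≤ 2 ^ i / L i := by positivity
    linarith
  have h7 : 1 / ((n : ℝ) + 1) * ((1 / L i) ^ a *
      max (((P i).filter (fun p => p ≤ y)).card : ℝ) (2 ^ i / L i ^ (n + 2))) ≤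
      1 / ((n : ℝ) + 1) * ((1 / L i) ^ a * (4 * (2 ^ i / L i))) := by
    apply mul_le_mul_of_nonneg_left _ (by positivity)
    apply mul_le_mul_of_nonneg_left (max_le h5 h6) (by positivity)
  refine h7.trans ?_
  have h8 := mul_le_mul_of_nonneg_right hν (show 0 ≤ (1 / L i) ^ a * (2 ^ i / L i) by positivity)
  linarith

/-- **The Chen counts.** -/
theorem chenCount {A : ℕ → ℕ → Finset ℕ} (hg : ∀ n : ℕ, ∃ i₁ : ℕ, ∀ i : ℕ, i₁ ≤ i → Good A n i) :
    ∃ c C : ℝ, 0 < c ∧ 0 < C ∧ ∀ a : ℕ, ∃ j₀ : ℕ, ∀ j : ℕ, j₀ ≤ j → ∀ N : ℕ, Even N → 4 * 2 ^ j ≤ N →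
      N ≤ 8 * 2 ^ j →
      c * ((1 / Real.log N) ^ a * (N / N.totient * (N / Real.log N ^ 2))) ≤
        chen (((8 * 2 ^ j : ℕ) : ℝ) ^ (1 / 9 : ℝ)) (A j a) N ∧
      (chen (((8 * 2 ^ j : ℕ) : ℝ) ^ (1 / 9 : ℝ)) (A j a) N : ℝ) ≤
        C * ((1 / Real.log N) ^ a * (N / N.totient * (N / Real.log N ^ 2))) := by
  obtain ⟨c, C₀, hc, hC₀, x₀, hbase⟩ := base
  set C : ℝ := max C₀ 1 with hC
  have hC1 : 1 ≤ C := le_max_right _ _
  have hCC : C₀ ≤ C := le_max_left _ _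
  refine ⟨c / 2, 4 * C, by positivity, by positivity, fun a => ?_⟩
  set η : ℝ := min 1 (c / (2 * C)) with hη
  have hη0 : 0 < η := by positivity
  have hη1 : η ≤ 1 := min_le_left _ _
  have hη2 : η * C ≤ c / 2 := by
    have h1 : η ≤ c / (2 * C) := min_le_right _ _
    rw [le_div_iff₀ (by positivity)] at h1
    linarith
  obtain ⟨n₀, hn₀⟩ := exists_nat_gt (1 / η)
  set n := max n₀ (a + 1) with hn
  have hnr : (n₀ : ℝ) ≤ n := by exact_mod_cast le_max_left _ _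
  have hν : 1 / ((n : ℝ) + 1) ≤ η := by
    rw [div_le_iff₀ (by positivity)]
    rw [div_lt_iff₀ hη0] at hn₀
    nlinarith
  have h0n : 0 + 1 ≤ n := by omega
  obtain ⟨i₁, hi₁⟩ := hg n
  obtain ⟨ja, hja2, hja⟩ := weights a one_pos
  obtain ⟨jt, hjt2, hjt⟩ := small n 0 h0n
  refine ⟨max (max i₁ ja) (max jt x₀), fun j hj N hNe hN4 hN8 => ?_⟩
  simp only [max_le_iff] at hj
  obtain ⟨⟨hji, hjja⟩, ⟨hjjt, hjx⟩⟩ := hj
  obtain ⟨wa1, wa2⟩ := hja j hjja j le_rfl (by omega) N hN4 hN8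
  have s0 := hjt j hjjt j le_rfl (by omega) N hN4 hN8
  rw [pow_zero, one_mul] at s0
  have hxj : x₀ ≤ 2 ^ j := hjx.trans Nat.lt_two_pow_self.le
  obtain ⟨hlo, hhi, -⟩ := hbase (2 ^ j) hxj N hNe hN4 hN8
  have hpos : 0 < 2 ^ j := by positivity
  have hN1 : 1 < N := by omega
  have hN0 : (0 : ℝ) < N := by exact_mod_cast (by omega : 0 < N)
  have hlN : 0 < Real.log N := Real.log_pos (by exact_mod_cast hN1)
  have hφ : (0 : ℝ) < N.totient := by exact_mod_cast Nat.totient_pos.2 (by omega)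
  set u : ℝ := 1 / Real.log N with hu
  have hu0 : 0 < u := by positivity
  set G : ℝ := (N : ℝ) / N.totient * (N / Real.log N ^ 2) with hG
  have hG0 : 0 < G := by positivity
  set wj : ℝ := (1 / L j) ^ a with hwj
  have hua : 0 < u ^ a := by positivity
  have hwj0 : 0 < wj := lt_of_lt_of_le hua wa1
  have q := (hi₁ j hji).chen a (by omega) N hN8
  set g : ℝ := (chen (((8 * 2 ^ j : ℕ) : ℝ) ^ (1 / 9 : ℝ)) (P j) N : ℝ) with hgdef
  have hlo' : c * G ≤ g := hlo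
  have hhi' : g ≤ C * G := le_trans hhi (mul_le_mul_of_nonneg_right hCC hG0.le)
  have hg0 : 0 ≤ g := Nat.cast_nonneg _
  have hCG : G ≤ C * G := le_mul_of_one_le_left hG0.le hC1
  have hmax0 : max g (2 ^ j / L j ^ (n + 2)) ≤ C * G := max_le hhi' (s0.trans hCG)
  have k0 : |(chen (((8 * 2 ^ j : ℕ) : ℝ) ^ (1 / 9 : ℝ)) (A j a) N : ℝ) - wj * g| ≤ η * (wj * (C * G)) := by
    refine q.trans ?_
    apply mul_le_mul hν _ _ hη0.le
    · exact mul_le_mul_of_nonneg_left hmax0 hwj0.le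
    · have : 0 ≤ max g (2 ^ j / L j ^ (n + 2)) := le_max_of_le_left hg0
      positivity
  obtain ⟨k1, k2⟩ := abs_le.1 k0
  have h1 : wj * (c * G) ≤ wj * g := mul_le_mul_of_nonneg_left hlo' hwj0.le
  have h2 : wj * g ≤ wj * (C * G) := mul_le_mul_of_nonneg_left hhi' hwj0.le
  have h3 : η * (wj * (C * G)) ≤ c / 2 * (wj * G) := by
    have h4 := mul_le_mul_of_nonneg_right hη2 (show 0 ≤ wj * G by positivity)
    refine le_trans (le_of_eq ?_) h4
    ring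
  have h5 : η * (wj * (C * G)) ≤ wj * (C * G) := mul_le_of_le_one_left (by positivity) hη1
  constructor
  · have h6 : c / 2 * (u ^ a * G) ≤ c / 2 * (wj * G) := by
      apply mul_le_mul_of_nonneg_left _ (by positivity)
      exact mul_le_mul_of_nonneg_right wa1 hG0.le
    have h7 : wj * (c * G) = c / 2 * (wj * G) + c / 2 * (wj * G) := by ring
    linarith
  · have h6 : wj * (C * G) ≤ 2 * (u ^ a * (C * G)) := by
      have h7 := mul_le_mul_of_nonneg_right wa2 (show 0 ≤ C * G by positivity)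
      refine h7.trans (le_of_eq ?_)
      ring
    have h7 : 4 * C * (u ^ a * G) = 4 * (u ^ a * (C * G)) := by ring
    linarith

end Pool.Agent.Q58.RM
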