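import Pool.Agent.Q58.RM.Chain
import Pool.Agent.Q58.RM.Base

/-!
# Nested random sets of primes: the construction
-/

set_option autoImplicit false

namespace Pool.Agent.Q58.RM

open Finset Filter
open Pool.Agent.Q253.Thin

/-- the primes of the `i`-th dyadic interval -/
def P (i : ℕ) : Finset ℕ := PI (2 ^ i) (2 * 2 ^ i)

/-- the logarithm of `2 ^ i` -/
noncomputable def L (i : ℕ) : ℝ := Real.log ((2 ^ i : ℕ) : ℝ)

theorem L_eq (i : ℕ) : L i = i * Real.log 2 := by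
  unfold L
  push_cast
  rw [Real.log_pow]

theorem L_le (i : ℕ) : L i ≤ i := by
  rw [L_eq]
  have h := Real.log_two_lt_d9
  have : (0 : ℝ) ≤ i := Nat.cast_nonneg i
  nlinarith

theorem one_le_L {i : ℕ} (hi : 2 ≤ i) : 1 ≤ L i := by
  rw [L_eq]
  have h := Real.log_two_gt_d9
  have : (2 : ℝ) ≤ i := by exact_mod_cast hi
  nlinarith

/-- quality `n` at the block `i` -/
def Qual (n i : ℕ) (F : Finset (Finset ℕ)) (s : ℕ → Finset ℕ) : Prop :=
  ∀ a ≤ n, ∀ R ∈ F, |((s a ∩ R).card : ℝ) - (1 / L i) ^ a * R.card| ≤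
    1 / ((n : ℝ) + 1) * ((1 / L i) ^ a * max (R.card : ℝ) (2 ^ i / L i ^ (n + 2)))

theorem Qual.mono {n m i : ℕ} {F : Finset (Finset ℕ)} {s : ℕ → Finset ℕ} (h : Qual m i F s) (hnm : n ≤ m)
    (hL : 1 ≤ L i) : Qual n i F s := by
  intro a ha R hR
  refine (h a (ha.trans hnm) R hR).trans ?_
  have h1 : (n : ℝ) ≤ m := by exact_mod_cast hnm
  have h0 : (0 : ℝ) ≤ n := Nat.cast_nonneg n
  have h2 : (2 : ℝ) ^ i / L i ^ (m + 2) ≤ 2 ^ i / L i ^ (n + 2) :=
    div_le_div_of_nonneg_left (by positivity) (by positivity) (pow_le_pow_right₀ hL (by omega))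
  have h3 : 1 / ((m : ℝ) + 1) ≤ 1 / ((n : ℝ) + 1) := one_div_le_one_div_of_le (by positivity) (by linarith)
  have hL0 : 0 < L i := by linarith
  apply mul_le_mul h3 _ _ (by positivity)
  · apply mul_le_mul_of_nonneg_left _ (by positivity)
    exact max_le_max le_rfl h2
  · have : (0 : ℝ) ≤ R.card := Nat.cast_nonneg _
    have : (0 : ℝ) ≤ max (R.card : ℝ) (2 ^ i / L i ^ (m + 2)) := le_max_of_le_left this
    positivity

theorem block (n : ℕ) : ∃ i₀ : ℕ, 2 ≤ i₀ ∧ ∀ i : ℕ, i₀ ≤ i → ∀ F : Finset (Finset ℕ), (∀ R ∈ F, R ⊆ P i) →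
    F.card ≤ 2 ^ (8 * i + 5) → ∃ s : ℕ → Finset ℕ, s 0 = P i ∧ Antitone s ∧ Qual n i F s := by
  set δ : ℝ := 1 / (2 * ((n : ℝ) + 1) ^ 2) with hδ
  have hn0 : (0 : ℝ) ≤ n := Nat.cast_nonneg n
  have hδ0 : 0 < δ := by positivity
  have h2nδ : 2 * n * δ ≤ 1 / ((n : ℝ) + 1) := by
    rw [hδ, ← mul_div_assoc, div_le_div_iff₀ (by positivity) (by positivity)]
    nlinarith
  have h2nδ1 : 2 * n * δ ≤ 1 := h2nδ.trans (by
    rw [div_le_one (by positivity)]
    linarith)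
  have hlim := tendsto_pow_const_div_const_pow_of_one_lt (2 * n + 3) (show (1 : ℝ) < 2 by norm_num)
  obtain ⟨i₁, hi₁⟩ := eventually_atTop.1 (hlim.eventually (Iic_mem_nhds (show (0 : ℝ) < δ ^ 2 / 60 by positivity)))
  refine ⟨max i₁ 2, le_max_right _ _, ?_⟩
  intro i hi F hF hFc
  have hi2 : 2 ≤ i := (le_max_right _ _).trans hi
  have hL1 := one_le_L hi2
  have hL0 : 0 < L i := by linarith
  have h1 := hi₁ i ((le_max_left _ _).trans hi)
  rw [div_le_iff₀ (by positivity)] at h1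
  have h2 : L i ^ (2 * n + 3) ≤ (i : ℝ) ^ (2 * n + 3) := pow_le_pow_left₀ hL0.le (L_le i) _
  have h3 : 60 * L i ^ (2 * n + 3) ≤ δ ^ 2 * 2 ^ i := by linarith
  have hlog : Real.log (2 * (F.card : ℝ) + 1) ≤ 15 * L i := by
    have h4 : 2 * F.card + 1 ≤ 2 ^ (15 * i) := by
      have h5 : 2 * F.card + 1 ≤ 2 ^ (8 * i + 7) := by
        have : 2 ^ (8 * i + 7) = 4 * 2 ^ (8 * i + 5) := by ring
        have h6 : 0 < 2 ^ (8 * i + 5) := by positivity
        omega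
      exact h5.trans (Nat.pow_le_pow_right (by norm_num) (by omega))
    have h5 : (2 * (F.card : ℝ) + 1) ≤ (2 : ℝ) ^ (15 * i) := by exact_mod_cast h4
    have h6 := Real.log_le_log (by positivity) h5
    rw [Real.log_pow] at h6
    rw [L_eq]
    push_cast at h6
    linarith
  obtain ⟨s, hs0, hsa, -, hs⟩ := chain (P i) F id (fun R hR => hF R hR) (p := 1 / L i) (δ := δ) (by positivity)
    (by rw [div_le_one hL0]; exact hL1) hδ0 (fun _ => 2 ^ i / L i ^ (n + 2)) n h2nδ1 (by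
      intro R _
      have h4 : δ ^ 2 * ((1 / L i) ^ n * ((2 : ℝ) ^ i / L i ^ (n + 2))) = δ ^ 2 * 2 ^ i / L i ^ (2 * n + 2) := by
        rw [one_div, inv_pow, show 2 * n + 2 = n + (n + 2) by ring, pow_add (L i) n (n + 2)]
        field_simp
      rw [h4, le_div_iff₀ (by positivity)]
      have h5 := mul_le_mul_of_nonneg_right hlog (show 0 ≤ L i ^ (2 * n + 2) by positivity)
      have h6 : 15 * L i * L i ^ (2 * n + 2) = 15 * L i ^ (2 * n + 3) := by ring
      rw [h6] at h5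
      nlinarith)
  refine ⟨s, hs0, hsa, ?_⟩
  intro a ha R hR
  refine (hs a ha R hR).trans ?_
  simp only [id]
  have h0 : (0 : ℝ) ≤ max (R.card : ℝ) (2 ^ i / L i ^ (n + 2)) := le_max_of_le_left (Nat.cast_nonneg _)
  apply mul_le_mul_of_nonneg_right _ (by positivity)
  refine le_trans ?_ h2nδ
  have : (a : ℝ) ≤ n := by exact_mod_cast ha
  nlinarith

theorem multi : ∃ i₀ : ℕ → ℕ, (∀ n, 2 ≤ i₀ n) ∧ ∀ i : ℕ, ∀ F : Finset (Finset ℕ), (∀ R ∈ F, R ⊆ P i) →
    F.card ≤ 2 ^ (8 * i + 5) → ∃ s : ℕ → Finset ℕ, s 0 = P i ∧ Antitone s ∧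
      ∀ n ≤ i, i₀ n ≤ i → Qual n i F s := by
  choose i₀ h2 h using block
  refine ⟨i₀, h2, fun i F hF hFc => ?_⟩
  by_cases hex : ∃ n ≤ i, i₀ n ≤ i
  · obtain ⟨n, hn, hni⟩ := hex
    have hspec := Nat.findGreatest_spec (P := fun n => i₀ n ≤ i) hn hni
    obtain ⟨s, hs0, hsa, hs⟩ := h _ i hspec F hF hFc
    refine ⟨s, hs0, hsa, fun m hm hmi => ?_⟩
    exact hs.mono (Nat.le_findGreatest (P := fun n => i₀ n ≤ i) hm hmi) (one_le_L ((h2 m).trans hmi))
  · push Not at hex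
    refine ⟨fun _ => P i, rfl, antitone_const, fun n hn hni => ?_⟩
    exact absurd hni (not_le.2 (hex n hn))

open Classical in
/-- the sets that are tested at the block `i` -/
noncomputable def tests (i : ℕ) (f : ℕ → ℕ → Finset ℕ) : Finset (Finset ℕ) :=
  (range (2 * 2 ^ i + 1)).image (fun y => (P i).filter (fun p => p ≤ y)) ∪
  (range (8 * 2 ^ i + 1)).image (fun N => (P i).filter (fun p => (N - p).Prime)) ∪
  (range (8 * 2 ^ i + 1)).image (fun N => (P i).filter (fun p => P2 (((8 * 2 ^ i : ℕ) : ℝ) ^ (1 / 9 : ℝ)) (N - p))) ∪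
  ((range (8 * 2 ^ i + 1)) ×ˢ ((range (i + 1)) ×ˢ (range i))).image
    (fun z => (P i).filter (fun q => z.1 - q ∈ f z.2.2 z.2.1))

theorem tests_sub (i : ℕ) (f : ℕ → ℕ → Finset ℕ) : ∀ R ∈ tests i f, R ⊆ P i := by
  classical
  intro R hR
  unfold tests at hR
  simp only [mem_union, mem_image] at hR
  rcases hR with ((⟨y, _, rfl⟩ | ⟨y, _, rfl⟩) | ⟨y, _, rfl⟩) | ⟨y, _, rfl⟩ <;> exact filter_subset _ _

theorem tests_card (i : ℕ) (f : ℕ → ℕ → Finset ℕ) : (tests i f).card ≤ 2 ^ (8 * i + 5) := by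
  unfold tests
  refine (card_union_le _ _).trans ?_
  refine (add_le_add ((card_union_le _ _).trans (add_le_add ((card_union_le _ _).trans
    (add_le_add card_image_le card_image_le)) card_image_le)) card_image_le).trans ?_
  rw [card_product, card_product, card_range, card_range, card_range, card_range]
  have h1 : i + 1 ≤ 2 ^ i := Nat.lt_two_pow_self
  set x := 2 ^ i with hx
  have hx1 : 1 ≤ x := Nat.one_le_two_pow
  have h2 : 2 ^ (8 * i + 5) = 32 * x ^ 8 := by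
    rw [pow_add, hx, ← pow_mul]
    ring
  rw [h2]
  have h3 : (i + 1) * i ≤ x * x := Nat.mul_le_mul h1 (by omega)
  have h4 : (8 * x + 1) * ((i + 1) * i) ≤ (8 * x + 1) * (x * x) := Nat.mul_le_mul le_rfl h3
  have hx3 : x ^ 3 ≤ x ^ 8 := Nat.pow_le_pow_right hx1 (by norm_num)
  have hx2 : x ^ 2 ≤ x ^ 8 := Nat.pow_le_pow_right hx1 (by norm_num)
  rcases Nat.eq_zero_or_pos i with h0 | h0
  · have hx' : x = 1 := by rw [hx, h0, pow_zero]
    rw [hx', h0]
    norm_num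
  · have hx4 : 2 ≤ x := by
      rw [hx]
      calc 2 = 2 ^ 1 := by norm_num
        _ ≤ 2 ^ i := Nat.pow_le_pow_right (by norm_num) h0
    have hx5 : 32 * x ≤ x ^ 8 * 1 := by
      have : 2 ^ 7 ≤ x ^ 7 := Nat.pow_le_pow_left hx4 7
      nlinarith
    nlinarith

/-- **The nested sets.** -/
theorem model : ∃ A : ℕ → ℕ → Finset ℕ, (∀ i, A i 0 = P i) ∧ (∀ i, Antitone (A i)) ∧
    ∀ n : ℕ, ∃ i₁ : ℕ, ∀ i : ℕ, i₁ ≤ i → ∀ f : ℕ → ℕ → Finset ℕ, (∀ j < i, f j = A j) →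
      Qual n i (tests i f) (A i) := by
  obtain ⟨i₀, h2, h⟩ := multi
  obtain ⟨A, hA⟩ := exists_rec (β := ℕ → Finset ℕ) (fun i f s => s 0 = P i ∧ Antitone s ∧
      ∀ n ≤ i, i₀ n ≤ i → Qual n i (tests i f) s)
    (fun i f => h i (tests i f) (tests_sub i f) (tests_card i f))
  refine ⟨A, fun i => (hA i).1, fun i => (hA i).2.1, fun n => ⟨max n (i₀ n), fun i hi f hf => ?_⟩⟩
  have h1 := (hA i).2.2 n ((le_max_left _ _).trans hi) ((le_max_right _ _).trans hi)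
  have h3 : tests i f = tests i (fun j => if j < i then A j else default) := by
    unfold tests
    congr 1
    apply image_congr
    intro z hz
    rw [mem_coe, mem_product, mem_product, mem_range, mem_range, mem_range] at hz
    simp only
    rw [hf _ hz.2.2, if_pos hz.2.2]
  rw [h3]
  exact h1

/-- the statements for the nested sets at the block `i` -/
structure Good (A : ℕ → ℕ → Finset ℕ) (n i : ℕ) : Prop where
  win : ∀ a ≤ n, ∀ y ≤ 2 * 2 ^ i, |(((A i a).filter (fun p => p ≤ y)).card : ℝ) -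
    (1 / L i) ^ a * ((P i).filter (fun p => p ≤ y)).card| ≤
    1 / ((n : ℝ) + 1) * ((1 / L i) ^ a * max (((P i).filter (fun p => p ≤ y)).card : ℝ) (2 ^ i / L i ^ (n + 2)))
  gold : ∀ a ≤ n, ∀ N ≤ 8 * 2 ^ i, |(gold (A i a) N : ℝ) - (1 / L i) ^ a * gold (P i) N| ≤
    1 / ((n : ℝ) + 1) * ((1 / L i) ^ a * max (gold (P i) N : ℝ) (2 ^ i / L i ^ (n + 2)))
  chen : ∀ a ≤ n, ∀ N ≤ 8 * 2 ^ i,
    |(chen (((8 * 2 ^ i : ℕ) : ℝ) ^ (1 / 9 : ℝ)) (A i a) N : ℝ) -
      (1 / L i) ^ a * chen (((8 * 2 ^ i : ℕ) : ℝ) ^ (1 / 9 : ℝ)) (P i) N| ≤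
    1 / ((n : ℝ) + 1) * ((1 / L i) ^ a *
      max (chen (((8 * 2 ^ i : ℕ) : ℝ) ^ (1 / 9 : ℝ)) (P i) N : ℝ) (2 ^ i / L i ^ (n + 2)))
  prev : ∀ a ≤ n, ∀ N ≤ 8 * 2 ^ i, ∀ b ≤ i, ∀ j < i,
    |(((A i a).filter (fun q => N - q ∈ A j b)).card : ℝ) -
      (1 / L i) ^ a * ((P i).filter (fun q => N - q ∈ A j b)).card| ≤
    1 / ((n : ℝ) + 1) * ((1 / L i) ^ a *
      max (((P i).filter (fun q => N - q ∈ A j b)).card : ℝ) (2 ^ i / L i ^ (n + 2)))

theorem model_good : ∃ A : ℕ → ℕ → Finset ℕ, (∀ i, A i 0 = P i) ∧ (∀ i, Antitone (A i)) ∧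
    ∀ n : ℕ, ∃ i₁ : ℕ, ∀ i : ℕ, i₁ ≤ i → Good A n i := by
  classical
  obtain ⟨A, h0, ha, h⟩ := model
  refine ⟨A, h0, ha, fun n => ?_⟩
  obtain ⟨i₁, hi₁⟩ := h n
  refine ⟨i₁, fun i hi => ?_⟩
  have hq := hi₁ i hi A (fun _ _ => rfl)
  have hsub : ∀ a, A i a ⊆ P i := fun a => by
    rw [← h0 i]
    exact ha i (Nat.zero_le a)
  have hinter : ∀ a, ∀ φ : ℕ → Prop, [DecidablePred φ] → A i a ∩ (P i).filter φ = (A i a).filter φ := by
    intro a φ _
    ext p
    rw [mem_inter, mem_filter, mem_filter]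
    exact ⟨fun h => ⟨h.1, h.2.2⟩, fun h => ⟨h.1, hsub a h.1, h.2⟩⟩
  refine ⟨?_, ?_, ?_, ?_⟩
  · intro a ha' y hy
    have h1 := hq a ha' ((P i).filter (fun p => p ≤ y)) (by
      unfold tests
      simp only [mem_union]
      left; left; left
      exact mem_image.2 ⟨y, mem_range.2 (by omega), by convert rfl⟩)
    rw [hinter] at h1
    exact h1
  · intro a ha' N hN
    have h1 := hq a ha' ((P i).filter (fun p => (N - p).Prime)) (by
      unfold tests
      simp only [mem_union]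
      left; left; right
      exact mem_image.2 ⟨N, mem_range.2 (by omega), by convert rfl⟩)
    rw [hinter] at h1
    exact h1
  · intro a ha' N hN
    have h1 := hq a ha' ((P i).filter (fun p => P2 (((8 * 2 ^ i : ℕ) : ℝ) ^ (1 / 9 : ℝ)) (N - p))) (by
      unfold tests
      simp only [mem_union]
      left; right
      exact mem_image.2 ⟨N, mem_range.2 (by omega), by convert rfl⟩)
    rw [hinter] at h1
    unfold Pool.Agent.Q253.Thin.chen
    convert h1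
  · intro a ha' N hN b hb j hj
    have h1 := hq a ha' ((P i).filter (fun q => N - q ∈ A j b)) (by
      unfold tests
      simp only [mem_union]
      right
      exact mem_image.2 ⟨(N, b, j), mem_product.2 ⟨mem_range.2 (show N < 8 * 2 ^ i + 1 by omega), mem_product.2
        ⟨mem_range.2 (show b < i + 1 by omega), mem_range.2 hj⟩⟩, by convert rfl⟩)
    rw [hinter] at h1
    exact h1

end Pool.Agent.Q58.RM
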